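import Pool.Agent.Helper66_BN.Stmts
import Pool.Agent.Helper20_PP.Nls

/-! BHW: existence and uniqueness of the highest weight vector -/

set_option autoImplicit false

namespace Pool.Agent.PP.BN.H65

open Pool.Agent.PP Matrix

variable {F : Type} [Field F] {G : Type} [Group G]

/-- the weight of a common eigenvector -/
theorem weight {T : Subgroup G} {k : ℕ} (ρ : G →* Matrix (Fin k) (Fin k) F) (v : Fin k → F)
    (hv : v ≠ 0) (h : ∀ t ∈ T, ∃ c : F, (ρ t).mulVec v = c • v) :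
    ∃ μ : T →* F, ∀ t : T, (ρ t).mulVec v = μ t • v := by
  have h' : ∀ t : T, ∃ c : F, (ρ t).mulVec v = c • v := fun t => h t t.2
  choose c hc using h'
  have inj : ∀ a b : F, a • v = b • v → a = b := fun a b hab => by
    have h1 : (a - b) • v = 0 := by rw [sub_smul, hab, sub_self]
    rcases smul_eq_zero.mp h1 with h2 | h2
    · exact sub_eq_zero.mp h2
    · exact absurd h2 hv
  refine ⟨⟨⟨c, ?_⟩, ?_⟩, hc⟩
  · apply inj
    rw [← hc 1, one_smul, Subgroup.coe_one, map_one, one_mulVec]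
  · intro a b
    apply inj
    show c (a * b) • v = (c a * c b) • v
    rw [← hc (a * b), Subgroup.coe_mul, map_mul, ← mulVec_mulVec, hc b, mulVec_smul, hc a,
      smul_smul, mul_comm]

/-- a common eigenvector of `T` in the fixed points of `U` -/
theorem exists_hw {ℓ : ℕ} (hF : GoodF ℓ F) [Finite G] {U T : Subgroup G}
    {n : G} (hR : Rk1 ℓ U T n) {k : ℕ} (hk : 0 < k) (ρ : G →* Matrix (Fin k) (Fin k) F) :
    ∃ (v : Fin k → F) (μ : T →* F), v ≠ 0 ∧ (∀ u ∈ U, (ρ u).mulVec v = v) ∧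
      ∀ t : T, (ρ t).mulVec v = μ t • v := by
  have hcl := hF.closed
  let Q : Submodule F (Fin k → F) → Prop := fun W => W ≠ ⊥ ∧
    (∀ w ∈ W, ∀ u ∈ U, (ρ u).mulVec w = w) ∧ ∀ t ∈ T, ∀ w ∈ W, (ρ t).mulVec w ∈ W
  -- the fixed points
  let W₀ : Submodule F (Fin k → F) :=
    { carrier := {w | ∀ u ∈ U, (ρ u).mulVec w = w}
      add_mem' := by
        intro a b ha hb u hu
        rw [mulVec_add, ha u hu, hb u hu]
      zero_mem' := by
        intro u _
        rw [mulVec_zero]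
      smul_mem' := by
        intro c a ha u hu
        rw [mulVec_smul, ha u hu] }
  have hW₀ : ∀ w, w ∈ W₀ ↔ ∀ u ∈ U, (ρ u).mulVec w = w := fun w => Iff.rfl
  have hQ₀ : Q W₀ := by
    refine ⟨?_, fun w hw => (hW₀ w).mp hw, ?_⟩
    · obtain ⟨v, hv, hfix⟩ := Pool.Agent.PP.H20.fixed_vector hF.prime hF.char U hR.pU hk (ρ.comp U.subtype)
      intro hbot
      apply hv
      have : v ∈ W₀ := (hW₀ v).mpr fun u hu => hfix ⟨u, hu⟩
      rw [hbot] at this
      exact (Submodule.mem_bot F).mp this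
    · intro t ht w hw
      rw [hW₀] at hw ⊢
      intro u hu
      have h1 : t⁻¹ * u * t ∈ U := by
        have := hR.TU t⁻¹ (inv_mem ht) u hu
        rwa [inv_inv] at this
      have h2 : u * t = t * (t⁻¹ * u * t) := by group
      rw [mulVec_mulVec, ← map_mul, h2, map_mul, ← mulVec_mulVec, hw _ h1]
  obtain ⟨W, hW, hmin⟩ := WellFounded.has_min
    (wellFounded_lt (α := Submodule F (Fin k → F))) {W | Q W} ⟨W₀, hQ₀⟩
  obtain ⟨hne, hU, hT⟩ := hW
  obtain ⟨v, hvW, hv⟩ := Submodule.exists_mem_ne_zero_of_ne_bot hne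
  -- every element of `T` acts as a scalar on `W`
  have hsc : ∀ t ∈ T, ∃ c : F, ∀ w ∈ W, (ρ t).mulVec w = c • w := by
    intro t ht
    have hnt : Nontrivial W := Submodule.nontrivial_iff_ne_bot.mpr hne
    let f : W →ₗ[F] W := (Matrix.toLin' (ρ t)).restrict (fun w hw => by
      rw [Matrix.toLin'_apply]
      exact hT t ht w hw)
    obtain ⟨c, hc⟩ := Module.End.exists_eigenvalue f
    obtain ⟨x, hx⟩ := hc.exists_hasEigenvector
    refine ⟨c, ?_⟩
    let W' : Submodule F (Fin k → F) :=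
      W ⊓ LinearMap.ker (Matrix.toLin' (ρ t) - c • LinearMap.id)
    have hW' : ∀ w, w ∈ W' ↔ w ∈ W ∧ (ρ t).mulVec w = c • w := by
      intro w
      rw [Submodule.mem_inf, LinearMap.mem_ker, LinearMap.sub_apply, LinearMap.smul_apply,
        LinearMap.id_apply, Matrix.toLin'_apply, sub_eq_zero]
    have hQ' : Q W' := by
      refine ⟨?_, ?_, ?_⟩
      · intro hbot
        have h1 : (x : Fin k → F) ∈ W' := by
          rw [hW']
          refine ⟨x.2, ?_⟩
          have h2 := hx.apply_eq_smul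
          have h3 := congrArg (fun z : W => (z : Fin k → F)) h2
          exact h3
        rw [hbot, Submodule.mem_bot] at h1
        exact hx.2 (Subtype.ext h1)
      · intro w hw
        exact hU w ((hW' w).mp hw).1
      · intro s hs w hw
        obtain ⟨h1, h2⟩ := (hW' w).mp hw
        refine (hW' _).mpr ⟨hT s hs w h1, ?_⟩
        rw [mulVec_mulVec, ← map_mul, hR.com t ht s hs, map_mul, ← mulVec_mulVec, h2,
          mulVec_smul]
    have hle : W' ≤ W := inf_le_left
    have heq : W' = W := by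
      by_contra hcon
      exact hmin W' hQ' (lt_of_le_of_ne hle hcon)
    intro w hw
    rw [← heq] at hw
    exact ((hW' w).mp hw).2
  obtain ⟨μ, hμ⟩ := weight (T := T) ρ v hv fun t ht => by
    obtain ⟨c, hc⟩ := hsc t ht
    exact ⟨c, hc v hvW⟩
  exact ⟨v, μ, hv, hU v hvW, hμ⟩

/-- the contragredient representation -/
def dual {k : ℕ} (ρ : G →* Matrix (Fin k) (Fin k) F) : G →* Matrix (Fin k) (Fin k) F where
  toFun g := (ρ g⁻¹)ᵀ
  map_one' := by rw [inv_one, map_one, transpose_one]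
  map_mul' a b := by rw [_root_.mul_inv_rev, map_mul, transpose_mul]

theorem dual_apply {k : ℕ} (ρ : G →* Matrix (Fin k) (Fin k) F) (g : G) :
    dual ρ g = (ρ g⁻¹)ᵀ := rfl

theorem dual_irr {k : ℕ} {ρ : G →* Matrix (Fin k) (Fin k) F} (h : IsIrr ρ) :
    IsIrr (dual ρ) := by
  refine ⟨h.1, ?_⟩
  rw [eq_top_iff]
  intro M _
  have h1 : Mᵀ ∈ Submodule.span F (Set.range ρ) := by
    rw [h.2]
    exact Submodule.mem_top
  have h2 : ∀ X ∈ Submodule.span F (Set.range ρ), Xᵀ ∈ Submodule.span F (Set.range (dual ρ)) := by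
    intro X hX
    induction hX using Submodule.span_induction with
    | mem x hx =>
      obtain ⟨g, rfl⟩ := hx
      apply Submodule.subset_span
      refine ⟨g⁻¹, ?_⟩
      rw [dual_apply, inv_inv]
    | zero =>
      rw [transpose_zero]
      exact Submodule.zero_mem _
    | add x y _ _ hx hy =>
      rw [transpose_add]
      exact Submodule.add_mem _ hx hy
    | smul c x _ hx =>
      rw [transpose_smul]
      exact Submodule.smul_mem _ c hx
  have h3 := h2 _ h1
  rwa [transpose_transpose] at h3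

/-- BHW -/
theorem bhw (hCyc : CycStmt) : EhwStmt := by
  intro ℓ _ F _ hF G _ _ U T n hR k ρ hρ
  obtain ⟨lam, ν, hlam, hlU, hlT⟩ := exists_hw hF hR hρ.1 (dual ρ)
  have hcyc := hCyc ℓ F hF G U T n hR k (dual ρ) (dual_irr hρ) lam ν hlam hlU hlT
  have hfin : Fintype U := Fintype.ofFinite U
  -- all functionals on a fixed vector
  have key : ∀ v : Fin k → F, (∀ u ∈ U, (ρ u).mulVec v = v) → ∀ w : Fin k → F,
      ∃ b : F, w ⬝ᵥ v = b * (lam ⬝ᵥ (ρ n⁻¹).mulVec v) := by
    intro v hv w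
    obtain ⟨a, ha⟩ := hcyc w
    rw [finsum_eq_sum_of_fintype] at ha
    refine ⟨∑ u, a u, ?_⟩
    rw [ha, sum_dotProduct, Finset.sum_mul]
    refine Finset.sum_congr rfl fun u _ => ?_
    rw [smul_dotProduct, smul_eq_mul, dual_apply, mulVec_transpose, ← dotProduct_mulVec,
      _root_.mul_inv_rev, map_mul, ← mulVec_mulVec, hv _ (inv_mem u.2)]
  have inj : ∀ v : Fin k → F, (∀ u ∈ U, (ρ u).mulVec v = v) →
      lam ⬝ᵥ (ρ n⁻¹).mulVec v = 0 → v = 0 := by
    intro v hv h0
    funext i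
    obtain ⟨b, hb⟩ := key v hv (Pi.single i 1)
    rw [h0, mul_zero, single_dotProduct, one_mul] at hb
    exact hb
  obtain ⟨v, μ, hv, hU, hT⟩ := exists_hw hF hR hρ.1 ρ
  refine ⟨v, μ, hv, hU, hT, fun w hw => ?_⟩
  have h0 : lam ⬝ᵥ (ρ n⁻¹).mulVec v ≠ 0 := fun h => hv (inj v hU h)
  refine ⟨(lam ⬝ᵥ (ρ n⁻¹).mulVec w) / (lam ⬝ᵥ (ρ n⁻¹).mulVec v), ?_⟩
  set c := (lam ⬝ᵥ (ρ n⁻¹).mulVec w) / (lam ⬝ᵥ (ρ n⁻¹).mulVec v) with hc
  have h1 := inj (w - c • v) (fun u hu => by rw [mulVec_sub, mulVec_smul, hw u hu, hU u hu])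
    (by rw [mulVec_sub, mulVec_smul, dotProduct_sub, dotProduct_smul, smul_eq_mul, hc,
      div_mul_cancel₀ _ h0, sub_self])
  exact sub_eq_zero.mp h1

end Pool.Agent.PP.BN.H65
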